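import Mathlib
import Pool.Agent.K9h50.LS.Et

/-!
# Lower semicontinuity of minimal log discrepancies for nondegenerate hypersurfaces in toric varieties

`HypGerm d M` (`Pool.Agent.Helper43K9.NH.Defs`): a closed hypersurface `Y` of dimension `d` in the
affine toric variety `Z` of an arbitrary strictly convex rational cone of dimension `d + 1` (which
need not be simplicial), through the fixed point `P` of `Z`. The equation `F` of `Y` in the torus is
nondegenerate (in the sense of Khovanskii and Kouchnirenko) for the weights in the interior of the
cone; nothing is assumed about the weights in the boundary of the cone, that is, about the other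
points of `Y`. For example, `Z` can be a quotient of an affine space by a finite abelian group, and
then `Y` is a hyperquotient singularity.

`Bd g`: a toric boundary `∑ β_i D_i` on `Z`, `β_i ≥ 0`, such that `K_Z + Y + ∑ β_i D_i` is
`ℝ`-Cartier. `IsResDiv b B'`: the boundary `B'` of `Y` is given by adjunction,
`K_Y + B' = (K_Z + Y + ∑ β_i D_i)|_Y`. `KltTy g`: `Y` is of klt type: for some nondegenerate boundary
the pair is klt at `P`.

`(X, B)`: any pair such that `K_X + B` is `ℝ`-Cartier, with the local equations `E x` at the closed
points `x`. Assume that `(X, B)` is at the closed point `x` étale locally isomorphic to such a pair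
`(Y, B')` at `P`: there is a variety `U` with étale morphisms `U → X` and `U → Y` and a closed point of
`U` over `x` and `P`, such that the pull-backs to `U` of `K_X + B` and of `K_Y + B'` agree.

Theorem: the function `mld (X, B)` on the closed points of `X` is lower semicontinuous at `x`: there
is an open neighbourhood of `x` with `mld_x' (X, B) ≥ mld_x (X, B)` for all its closed points `x'`. So
it is lower semicontinuous on `X` if the assumption holds for all closed points `x`. (`mld` is the
infimum of the log discrepancies, and `-∞` if one of them is negative.)

The proof. Let `v` be a prime divisor over a closed point `x'` of `Y` near `P`, in the stratum of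
dimension `s` of `Z`, and let `w` be the weights of `v`, which are in the relative interior of a face
of codimension `s`. (1) The Jacobian inequality: the log discrepancy of `v` is at least
`ψ (w) - F (w) + s`, or it is at least `ψ (w) - F (w) + s - 1` and all the sums of the terms of the
initial form of `F` in a class modulo the stratum vanish at `x'`. (2) The latter condition, and also
the nondegeneracy at `x'`, are controlled near `P` by initial forms for weights `ν` which are positive
on the stratum; this uses valuation rings which dominate the local ring at `P` and rational
approximation. (3) By Caratheodory's theorem for `ν` there are at most `s` rays of the cone whose sum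
with `w` is a weight `w'` in the interior of the cone with `ψ (w') - F (w')` at most the log
discrepancy of `v`. (4) Combinatorial inversion of adjunction at `P`.
-/

set_option autoImplicit false

namespace Pool.Agent.Results.MP_f23696_ag.NondegHypersurfaces

open Pool.Agent.H436R3.KT Pool.Agent.W497.Mld Pool.Agent.Helper43K9.NH Pool.Agent.K9h50.NH
open Pool.Agent.Helper58K9.AR (mld)
open Pool.Agent.Helper58K9.ET (common_refl)

/-- The assumption holds for a nondegenerate hypersurface itself, at the fixed point. -/
theorem hyp_mem {d : ℕ} {K : Type} [Field K] [Algebra ℂ K] (g : HypGerm d K) (hk : KltTy g)
    (b : Bd g) (B : EffDiv g.X) (h : IsResDiv b B) : IsHyp (fun x => resEq h x) g.P :=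
  ⟨d, K, inferInstance, inferInstance, g, hk, b, B, h, common_refl _ g.P⟩

/-- **Lower semicontinuity of minimal log discrepancies** at the closed point `x` of the pair
`(X, B)`, if `(X, B)` is étale locally at `x` a nondegenerate hypersurface of klt type in a toric
variety with a toric boundary. -/
theorem result {K : Type} [Field K] [Algebra ℂ K] (X : AffVar K) (B : EffDiv X)
    (E : ∀ x : Pt X, LocEq B x) (x : Pt X) (hx : IsHyp E x) :
    ∃ f : X.R, x f ≠ 0 ∧ ∀ x' : Pt X, x' f ≠ 0 → mld (E x) ≤ mld (E x') :=
  et_lsc hx

end Pool.Agent.Results.MP_f23696_ag.NondegHypersurfaces
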